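import Pool.Agent.R782.Bal.Main

/-!
# The Singer conjecture for Poincare duality groups in right-angled Coxeter groups: the class `SQ`

Let `L` be the flag complex of the finite graph `G`, and suppose that `L` is a homology manifold with the homology of
the `(n-1)`-sphere.  Then all torsion-free subgroups of finite index of the right-angled Coxeter group `W G` are
Poincare duality groups of dimension `n` (Davis): over the integers if `L` is an integral homology sphere, over the
reals in the generality of `HSph n G`.

The class `SQ b` (for which the `ℓ²`-homology vanishes in the degrees `≥ b`) contains, for `b = d + 1`, the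
`(d + 1)`-colourable flag complexes which are embedded in the sphere of dimension `2 d`, it contains the earlier class
`AR n` for `b = n / 2 + 1`, and it is closed under vertex splitting, gluing, joins, suspensions, adding and deleting
vertices and edges (with conditions on the links) and relative subdivisions: if a set `O` of vertices is such that the
lower links of the elements of `O` are `ℓ²`-acyclic homology spheres (the class `SQ 0`, by duality) joined to the
rest of the links, and the complement of `O` is in `SQ b`, then the complex is in `SQ b`. For example, `O` can be
the midpoints of subdivided edges or the barycentres of subdivided simplices with an even number of vertices.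
-/

set_option autoImplicit false

namespace Pool.Agent.Results.MP_984acc_gt.RelativeSubdivisions

open Pool.Agent.W907.SG Pool.Agent.TH652.Above Pool.Agent.Y132.SI Pool.Agent.R782.Bal

/-- Let the flag complex of `G` be a real homology sphere of dimension `n - 1` in the class `SQ (n / 2 + 1)`.
(1) The reduced `ℓ²`-homology of the Davis complex of `W G` vanishes in all degrees `i ≠ n / 2`.
(2) For `n = 2 m` the number `(-1)^m χ(W G)` is not negative, `χ(W G) = ∑_T (-1/2)^|T|` over the cliques `T`.
(3) For each `ε > 0` there is a finite set `E` of nontrivial elements of `W G` such that for every subgroup `H` of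
finite index of `W G` which contains no conjugate of an element of `E`, and for all `i`, the `i`-th real Betti number
of `H` (the dimension of the space of the `H`-invariant real harmonic `i`-chains of the Davis complex) differs by at
most `ε [W G : H]` from `0`, if `2 i ≠ n`, or from `(-1)^i χ(W G) [W G : H]`, if `2 i = n`. -/
theorem result : ∀ (n : ℕ) (V : Type) [Fintype V] [LinearOrder V] (G : SimpleGraph V), HSph n G →
    SQ (n / 2 + 1) G →
    (∀ i : ℕ, 2 * i ≠ n → L2Van G i) ∧
    (∀ m : ℕ, n = 2 * m → 0 ≤ (-1 : ℚ) ^ m * chiW G) ∧
    ∀ ε : ℝ, 0 < ε → ∃ E : Finset (W G), (1 : W G) ∉ E ∧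
      ∀ H : Subgroup (W G), H.FiniteIndex → (∀ g ∈ E, ∀ x : W G, x * g * x⁻¹ ∉ H) → ∀ i : ℕ,
          |(Module.finrank ℝ (HInv G H i) : ℝ) -
            (if 2 * i = n then (-1) ^ i * (chiW G : ℝ) else 0) * H.index| ≤ ε * H.index := by
  intro n V _ _ G hS hA
  have h1 : ∀ i : ℕ, 2 * i ≠ n → L2Van G i := fun i hi => singer_SQ hS hA i hi
  refine ⟨h1, ?_, fun ε hε => growth_free G n h1 ε hε⟩
  rintro m rfl
  exact chi_sign G fun i hi => h1 i (by omega)

end Pool.Agent.Results.MP_984acc_gt.RelativeSubdivisions
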