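import Pool.Agent.R703.MO.Main

/-!
# The Singer conjecture for Poincare duality groups in right-angled Coxeter groups: circle-valued Morse functions

Let `L` be the flag complex of the finite graph `G`, and suppose that `L` is a homology manifold with the homology of
the `(n-1)`-sphere (`HSph n G`). Then all torsion-free subgroups of finite index of the right-angled Coxeter group
`W G` are Poincare duality groups of dimension `n` (Davis): over the integers if `L` is an integral homology sphere,
over the reals in the generality of `HSph n G`.

A system of slopes (`Slope G X`) on the finite set `X` is an action of `W G` on `X` by involutions `a v` with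
integers `dir v x` for the edges from `x` to `a v x`, odd under reversing the edge and equal for opposite
edges of squares: a circle-valued Morse function on the cube complex `Davis complex / stabilizer` which is affine on
each cube and may be constant on some edges and cubes. The criterion: for each degree `i > n / 2` there is a
system of slopes (which may depend on `i`) for which the ascending links of all the flat cubes (including the
vertices) have no reduced real homology in the degree `i - 1 - dimension of the flat cube`. The ascending link of
the flat cube at `x` spanned by the clique `S` is the flag complex on the ascending directions at `x` which are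
adjacent to all the elements of `S`.
-/

set_option autoImplicit false

namespace Pool.Agent.Results.MP_984acc_gt.SlopeSystems

open Pool.Agent.W907.SG Pool.Agent.W907.SM Pool.Agent.Y132.SI Pool.Agent.R703.MO
open Pool.Agent.TH652.Above (HSph chi_sign)

/-- Let the flag complex of `G` be a real homology manifold with the real homology of the `(n-1)`-sphere such that for
each `i > n / 2` there is a system of slopes on a nonempty finite set for which the flag complex on the ascending
directions at `x` adjacent to all the elements of `S` has no reduced real homology in the degree `i - |S| - 1`, for
all points `x` and all cliques `S` of flat directions at `x` with `|S| ≤ i`.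
(1) The reduced `ℓ²`-homology of the Davis complex of `W G` vanishes in all degrees `i ≠ n / 2`.
(2) For `n = 2 m` the number `(-1)^m χ(W G)` is not negative, `χ(W G) = ∑_T (-1/2)^|T|` over the cliques `T`.
(3) For each `ε > 0` there is a finite set `E` of nontrivial elements of `W G` such that for every subgroup `H` of
finite index of `W G` which contains no conjugate of an element of `E`, and for all `i`, the `i`-th real Betti number
of `H` (the dimension of the space of the `H`-invariant real harmonic `i`-chains of the Davis complex) differs by at
most `ε [W G : H]` from `0`, if `2 i ≠ n`, or from `(-1)^i χ(W G) [W G : H]`, if `2 i = n`. -/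
theorem result : ∀ (n : ℕ) (V : Type) [Fintype V] [LinearOrder V] (G : SimpleGraph V), HSph n G →
    (∀ i : ℕ, n < 2 * i → ∃ (X : Type) (_ : Finite X) (_ : Nonempty X) (D : Slope G X), ∀ (x : X) (S : Finset V),
      G.IsClique (S : Set V) → (∀ s ∈ S, D.dir s x = 0) → ∀ j, i = j + S.card → HomZero G (D.Asc S x) j) →
    (∀ i : ℕ, 2 * i ≠ n → L2Van G i) ∧
    (∀ m : ℕ, n = 2 * m → 0 ≤ (-1 : ℚ) ^ m * chiW G) ∧
    ∀ ε : ℝ, 0 < ε → ∃ E : Finset (W G), (1 : W G) ∉ E ∧
      ∀ H : Subgroup (W G), H.FiniteIndex → (∀ g ∈ E, ∀ x : W G, x * g * x⁻¹ ∉ H) → ∀ i : ℕ,
          |(Module.finrank ℝ (HInv G H i) : ℝ) -
            (if 2 * i = n then (-1) ^ i * (chiW G : ℝ) else 0) * H.index| ≤ ε * H.index := by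
  intro n V _ _ G hS h
  have h1 : ∀ i : ℕ, 2 * i ≠ n → L2Van G i := fun i hi => singer_slopes hS h i hi
  refine ⟨h1, ?_, fun ε hε => growth_free G n h1 ε hε⟩
  rintro m rfl
  exact chi_sign G fun i hi => h1 i (by omega)

end Pool.Agent.Results.MP_984acc_gt.SlopeSystems
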