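import Pool.Agent.R779.CT.Pow

/-!
# A coarse criterion for the vanishing of `L²`-Betti numbers of Poincaré duality groups

`X : FinRes G` (`Pool.Agent.H919R4.ZS.Defs`) is a finite free resolution of the trivial `ℤ[G]`-module
`ℤ` with bases, for instance the cellular chain complex of the universal cover of a finite aspherical
complex `M` with `π₁(M) = G` (or for a Poincaré duality group of type `FL`; no duality is used).
`L2Zero X i` (`Pool.Agent.R779.CT.Defs`) says that there is no nonzero square summable harmonic
`i`-chain on the universal cover, that is, that the `i`-th `L²`-Betti number is zero.

`NearMap X N` (`Pool.Agent.R779.CT.NearDefs`): a chain map from the integral chains of the universal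
cover to themselves which is at finite distance from `N` times the identity. It need not commute with
the action of `G`. `TendsWeaklyToZero X i N f`: the operators `f_k / N_k` on the square summable
`i`-chains converge to zero in the weak operator topology.

The `i`-th `L²`-Betti number is zero if and only if there are chain maps `f_k`, each of them at finite
distance (not uniformly in `k`) from `N_k` times the identity, such that `f_k / N_k → 0` weakly in degree `i`.

For instance (not formalised here), a single chain map `f` at finite distance from `N` times the identity,
whose operator norm on the square summable `i`-chains is less than `N`, suffices: take its powers. Such maps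
exist below and above the middle in strongly pinched negative curvature (contract towards a point at
infinity). Uniformly bounded chain maps with `N_k = 1` which move every cell to infinity are given by coarse
translations of `G`.

Proof. If `f` is at finite distance from `N` times the identity, it is chain homotopic to it by a homotopy
with finitely many local types, which is therefore bounded in the `ℓ²`-norm; so `⟨h, f^* h⟩ = N ⟨h, h⟩` for
every square summable harmonic `h`, and `h = 0` in the limit. Conversely, let `Δ` be the combinatorial
Laplacian, and let `c` be a large integer; then `f_k = (c - Δ)^{2k}` is a chain map, `N_k = c^{2k}`, and
`((c - Δ) / c)^{2k}` tends strongly to the projection to the harmonic chains, that is, to zero.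
-/

set_option autoImplicit false

namespace Pool.Agent.Results.MP_984acc_gt.WeakCriterion

open Pool.Agent.H919R4.ZS (FinRes)
open Pool.Agent.R779.CT (L2Zero NearMap TendsWeaklyToZero)

theorem result (G : Type) [Group G] (X : FinRes G) (i : ℕ) :
    L2Zero X i ↔ ∃ (N : ℕ → ℕ) (f : ∀ k, NearMap X (N k)), (∀ k, 0 < N k) ∧
      TendsWeaklyToZero X i N f :=
  Pool.Agent.R779.CT.near_iff X i

end Pool.Agent.Results.MP_984acc_gt.WeakCriterion
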